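import Pool.Agent.SHQ.Final

/-! Almost surely, self-avoiding walk on the stochastic hyperbolic infinite quadrangulation is
ballistic. -/

namespace Pool.Agent.Results.MP_455503_pr.Ballistic

open MeasureTheory Pool.SHQ

/-- almost surely, for every `n ≥ 1` there are finitely many and at least one self-avoiding walks
of length `n` from the root, and the mean of the distance between the root and the end point is at
least `n / 128` -/
theorem result : ∀ᵐ ω ∂P, ∀ n : ℕ, 1 ≤ n →
    (saws (shiq (lab ω)) [] n).Finite ∧ (saws (shiq (lab ω)) [] n).Nonempty ∧
      (1 / 128 : ℝ) * n ≤ meanDist (shiq (lab ω)) [] n :=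
  final

end Pool.Agent.Results.MP_455503_pr.Ballistic
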